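import Pool.Agent.H62.LP.T1

/-! Row CUR of board rwl_modules. -/

set_option autoImplicit false

open MeasureTheory ProbabilityTheory Filter Topology
open scoped ENNReal NNReal

namespace Pool.Agent.H69.LP

open Pool.Agent.H62.LP

lemma cur_sum (hADD : T_ADD) (Λ : Type) [Countable Λ] (q : Λ → ℝ≥0) (J : ℕ) :
    ∀ q₀ : Λ → ℝ≥0, ((pois q₀).prod (Measure.pi (fun _ : Fin J => pois q))).map
      (fun (p : (Λ → ℕ) × (Fin J → Λ → ℕ)) c => p.1 c + ∑ j, p.2 j c) =
        pois (fun c => q₀ c + J * q c) := by
  induction J with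
  | zero =>
    intro q₀
    rw [Measure.pi_of_empty _ (fun i => i.elim0), Measure.prod_dirac,
      Measure.map_map (by fun_prop) (by fun_prop)]
    have h1 : ((fun (p : (Λ → ℕ) × (Fin 0 → Λ → ℕ)) c => p.1 c + ∑ j, p.2 j c) ∘
        fun x : Λ → ℕ => (x, fun i : Fin 0 => i.elim0)) = id := by
      funext x c
      simp
    rw [h1, Measure.map_id]
    congr 1
    funext c
    simp
  | succ J ih =>
    intro q₀
    have h1 := (measurePreserving_piFinSuccAbove (fun _ : Fin (J + 1) => pois q) 0).symm.map_eq
    rw [← h1]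
    have h2 : (pois q₀).prod (Measure.map
        (MeasurableEquiv.piFinSuccAbove (fun _ : Fin (J + 1) => Λ → ℕ) 0).symm
          ((pois q).prod (Measure.pi fun _ : Fin J => pois q))) =
        ((pois q₀).prod ((pois q).prod (Measure.pi fun _ : Fin J => pois q))).map
          (Prod.map id (MeasurableEquiv.piFinSuccAbove (fun _ : Fin (J + 1) => Λ → ℕ) 0).symm) := by
      rw [← Measure.map_prod_map _ _ measurable_id (MeasurableEquiv.measurable _), Measure.map_id]
    have h3 : ((pois q₀).prod ((pois q).prod (Measure.pi fun _ : Fin J => pois q))) =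
        (((pois q₀).prod (pois q)).prod (Measure.pi fun _ : Fin J => pois q)).map
          MeasurableEquiv.prodAssoc :=
      (Measure.prodAssoc_prod (μ := pois q₀) (ν := pois q)
        (τ := Measure.pi fun _ : Fin J => pois q)).symm
    have h4 : (((pois q₀).prod (pois q)).prod (Measure.pi fun _ : Fin J => pois q)).map
        (Prod.map (fun (p : (Λ → ℕ) × (Λ → ℕ)) c => p.1 c + p.2 c) id) =
        (pois (fun c => q₀ c + q c)).prod (Measure.pi fun _ : Fin J => pois q) := by
      rw [← Measure.map_prod_map _ _ (by fun_prop) measurable_id, Measure.map_id, hADD]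
    have h5 := ih (fun c => q₀ c + q c)
    rw [← h4, Measure.map_map (by fun_prop) (by fun_prop)] at h5
    simp only [Fin.succAbove_zero] at *
    have h6 := congrArg (Measure.map
      (fun (p : (Λ → ℕ) × (Fin (J + 1) → Λ → ℕ)) c => p.1 c + ∑ j, p.2 j c)) h2
    refine h6.trans ?_
    rw [h3, Measure.map_map (by fun_prop) (by fun_prop),
      Measure.map_map (by fun_prop) (by fun_prop)]
    have h7 : (fun c => q₀ c + ((J + 1 : ℕ) : ℝ≥0) * q c) =
        fun c => (fun c => q₀ c + q c) c + (J : ℝ≥0) * q c := by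
      funext c
      push_cast
      ring
    rw [h7, ← h5]
    congr 1
    funext p c
    simp only [Function.comp, Prod.map, id]
    rw [Fin.sum_univ_succ]
    simp [MeasurableEquiv.piFinSuccAbove, MeasurableEquiv.prodAssoc, Fin.insertNthEquiv, add_assoc]

/-- The rates of the rounds. -/
def rr {Λ : Type} {J : ℕ} (q₀ q : Λ → ℝ≥0) : Option (Fin J) → Λ → ℝ≥0
  | none => q₀
  | some _ => q

lemma cur_idx (Λ : Type) [Countable Λ] (J : ℕ) (q₀ q : Λ → ℝ≥0) :
    ((pois q₀).prod (Measure.pi (fun _ : Fin J => pois q))).map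
    (fun (p : (Λ → ℕ) × (Fin J → Λ → ℕ)) (x : Option (Fin J) × Λ) =>
      match x.1 with
      | none => p.1 x.2
      | some j => p.2 j x.2) =
      pois (fun x : Option (Fin J) × Λ => match x.1 with
        | none => q₀ x.2
        | some _ => q x.2) := by
  have h1 := Measure.pi_map_piOptionEquivProd (ι := Fin J) (β := fun _ => Λ → ℕ)
    (fun o : Option (Fin J) => pois (rr q₀ q o))
  have h2 := Measure.infinitePi_map_curry_symm (ι := Option (Fin J)) (κ := Λ)
    (fun o c => poissonMeasure (rr q₀ q o c))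
  have h3 : (Measure.infinitePi fun o : Option (Fin J) => Measure.infinitePi fun c : Λ =>
      poissonMeasure (rr q₀ q o c)) = Measure.pi (fun o : Option (Fin J) => pois (rr q₀ q o)) := by
    rw [Measure.infinitePi_eq_pi]
    rfl
  rw [h3, ← h1, Measure.map_map (MeasurableEquiv.measurable _) (MeasurableEquiv.measurable _)] at h2
  have h4 : ((pois q₀).prod (Measure.pi (fun _ : Fin J => pois q))) =
      ((Measure.pi (fun _ : Fin J => pois q)).prod (pois q₀)).map Prod.swap :=
    Measure.prod_swap.symm
  have h5 : (fun x : Option (Fin J) × Λ => match x.1 with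
        | none => q₀ x.2
        | some _ => q x.2) = fun x => rr q₀ q x.1 x.2 := by
    funext x
    rcases x with ⟨_ | j, c⟩
    · rfl
    · rfl
  rw [h5]
  refine Eq.trans ?_ h2
  rw [h4, Measure.map_map ?_ measurable_swap]
  · congr 1
    funext p x
    rcases x with ⟨_ | j, c⟩
    · rfl
    · rfl
  · refine measurable_pi_lambda _ fun x => ?_
    rcases x with ⟨_ | j, c⟩
    · exact (measurable_pi_apply c).comp measurable_fst
    · have h6 : Measurable fun p : (Λ → ℕ) × (Fin J → Λ → ℕ) => p.2 j c := by fun_prop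
      exact h6

theorem pf_CUR (hADD : T_ADD) : T_CUR := by
  intro Λ _ J q₀ q
  exact ⟨cur_sum hADD Λ q J q₀, cur_idx Λ J q₀ q⟩

end Pool.Agent.H69.LP
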