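import Pool.Agent.H62.LP.T1

/-! Row ADD of board rwl_modules. -/

set_option autoImplicit false

open MeasureTheory ProbabilityTheory Filter Topology
open scoped ENNReal NNReal

namespace Pool.Agent.H69.LP

open Pool.Agent.H62.LP

/-- Exchange of the two indices of an infinite product. -/
lemma infinitePi_swap {ι κ X : Type} [MeasurableSpace X] (μ : ι → κ → Measure X)
    [∀ i j, IsProbabilityMeasure (μ i j)] :
    (Measure.infinitePi fun i => Measure.infinitePi fun j => μ i j).map
        (fun (x : ι → κ → X) j i => x i j) =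
      Measure.infinitePi fun j => Measure.infinitePi fun i => μ i j := by
  rw [← Measure.infinitePi_map_curry (fun i j => μ i j)]
  have h2 := Measure.infinitePi_map_piCongrLeft (X := fun _ : ι × κ => X)
    (μ := fun p : ι × κ => μ p.1 p.2) (Equiv.prodComm κ ι)
  rw [← h2, Measure.map_map (by fun_prop) (by fun_prop),
    Measure.map_map (by fun_prop) (by fun_prop),
    ← Measure.infinitePi_map_curry (fun j i => μ i j)]
  congr 1

lemma po_add (a b : ℝ≥0) :
    ((poissonMeasure a).prod (poissonMeasure b)).map (fun p : ℕ × ℕ => p.1 + p.2) =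
      poissonMeasure (a + b) := by
  rw [← poissonMeasure_conv_poissonMeasure]
  rfl

theorem pf_ADD : T_ADD := by
  intro Λ _ q₁ q₂
  have h1 := (measurePreserving_piFinTwo (fun k : Fin 2 => pois ((![q₁, q₂] : Fin 2 → Λ → ℝ≥0) k))).map_eq
  simp only [Matrix.cons_val_zero, Matrix.cons_val_one] at h1
  rw [← h1, Measure.map_map (by fun_prop) (by fun_prop), ← Measure.infinitePi_eq_pi]
  have h2 : ((fun (p : (Λ → ℕ) × (Λ → ℕ)) c => p.1 c + p.2 c) ∘
      (MeasurableEquiv.piFinTwo fun _ : Fin 2 => Λ → ℕ)) =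
      (fun (z : Λ → Fin 2 → ℕ) (c : Λ) => (fun y : Fin 2 → ℕ => y 0 + y 1) (z c)) ∘
        (fun (x : Fin 2 → Λ → ℕ) j i => x i j) := by
    funext x c
    rfl
  rw [h2, ← Measure.map_map (by fun_prop) (by fun_prop)]
  have h3 := infinitePi_swap (fun (k : Fin 2) (c : Λ) =>
    poissonMeasure ((![q₁, q₂] : Fin 2 → Λ → ℝ≥0) k c))
  have h4 : (Measure.infinitePi fun k : Fin 2 => pois ((![q₁, q₂] : Fin 2 → Λ → ℝ≥0) k)) =
    (Measure.infinitePi fun k : Fin 2 => Measure.infinitePi fun c : Λ =>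
      poissonMeasure ((![q₁, q₂] : Fin 2 → Λ → ℝ≥0) k c)) := rfl
  rw [h4, h3]
  have h6 := Measure.infinitePi_map_pi (X := fun _ : Λ => Fin 2 → ℕ) (Y := fun _ : Λ => ℕ)
    (μ := fun c => Measure.infinitePi fun k : Fin 2 =>
      poissonMeasure ((![q₁, q₂] : Fin 2 → Λ → ℝ≥0) k c))
    (f := fun _ y => y 0 + y 1) (by fun_prop)
  refine h6.trans ?_
  unfold pois
  congr 1
  funext c
  rw [Measure.infinitePi_eq_pi]
  have h5 := (measurePreserving_piFinTwo (fun k : Fin 2 =>
    poissonMeasure ((![q₁, q₂] : Fin 2 → Λ → ℝ≥0) k c))).map_eq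
  simp only [Matrix.cons_val_zero, Matrix.cons_val_one] at h5
  rw [← po_add, ← h5, Measure.map_map (by fun_prop) (by fun_prop)]
  rfl

end Pool.Agent.H69.LP
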