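import Pool.Agent.H7.LP.Targets

/-!
# Row BST of the board lpg_modules: structures are Borel
-/

set_option autoImplicit false

open Set Filter Topology

namespace Pool.Agent.H69.LP

open Pool.Agent.H7.LP

theorem pf_BST (h1 : T_BPR) (h2 : T_BAD) : T_BST := by
  intro G X _ _ _ _ _ _ _ _ L M _ Y S
  obtain ⟨hK, hA⟩ := h2 G X L M Y S
  have hq : ∀ i j, Measurable (fun p : X × (ℕ × ℕ → G) × St => p.2.1 i * (p.2.1 j)⁻¹) :=
    fun i j => ((measurable_pi_apply i).comp (measurable_fst.comp measurable_snd)).mul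
      ((measurable_pi_apply j).comp (measurable_fst.comp measurable_snd)).inv
  have hw : ∀ i j n, MeasurableSet {p : X × (ℕ × ℕ → G) × St | p.2.2 (i, j, n) = true} :=
    fun i j n => by
      have h : Measurable (fun p : X × (ℕ × ℕ → G) × St => p.2.2 (i, j, n)) :=
        (measurable_pi_apply (i, j, n)).comp (measurable_snd.comp measurable_snd)
      exact h (measurableSet_singleton true)
  have hN : ∀ q, MeasurableSet {p : X × (ℕ × ℕ → G) × St | ∃ g, S.Node p.1 q g} :=
    fun q => measurable_fst (h1 G X L M Y S q)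
  have hB : ∀ i j : ℕ × ℕ, MeasurableSet {p : X × (ℕ × ℕ → G) × St |
      S.Adm i.1 j.1 (p.2.1 i * (p.2.1 j)⁻¹)} := fun i j => hq i j (hA i.1 j.1)
  have hC : ∀ (i j : ℕ × ℕ) (n : ℕ), MeasurableSet {p : X × (ℕ × ℕ → G) × St |
      (S.gm n)⁻¹ * (p.2.1 i * (p.2.1 j)⁻¹) ∈ S.K j.1} := fun i j n =>
    ((hq i j).const_mul (S.gm n)⁻¹) (hK j.1).measurableSet
  refine measurableSet_setOf.2 (Measurable.forall fun i => Measurable.forall fun j =>
    Measurable.forall fun n => Measurable.iff (measurableSet_setOf.1 (hw i j n)) ?_)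
  exact measurableSet_setOf.1 (((hN i.1).inter ((hN j.1).inter ((hB i j).inter (hC i j n)))))

end Pool.Agent.H69.LP
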