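import Pool.Agent.H7.LP.Targets

/-!
# Row TYC of the board lpg_modules: there are countably many types
-/

set_option autoImplicit false

open Set Filter Topology

namespace Pool.Agent.H69.LP

open Pool.Agent.H7.LP

theorem pf_TYC (h1 : T_LAB) (h2 : T_TGB) : T_TYC := by
  intro G X _ _ _ _ _ L M _ Y P
  obtain ⟨a1, -, -, -, a5, a6, -⟩ := h1 G
  have hS : (⋃ k : ℕ, ⋃ z ∈ P.Z k, (fun K : Subgroup G => (k, z, K)) ''
      {K : Subgroup G | L.R k ≤ K ∧ K ≤ Stb (L.H k) (lab (L.R k) (tr z.2 (Y.C z.1))) ∧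
        OpenIn K (Stb (L.H k) (lab (L.R k) (tr z.2 (Y.C z.1)))) ∧
        Tight (L.R k) K}).Countable := by
    refine countable_iUnion fun k => (P.ctb k).biUnion fun z _ => Countable.image ?_ _
    refine h2 G (L.R k) (L.H k) _ (L.piece k) ?_ ?_ ?_
    · exact a5 _ _ (Subgroup.isClosed_of_isOpen _ (L.piece k).op) fun n => a1 _ _ n
    · exact a6 _ _ _ (L.piece k)
    · exact fun h hh => hh.1
  haveI := hS.to_subtype
  have hm : ∀ q : Ty P, (q.k, q.z, q.K) ∈ (⋃ k : ℕ, ⋃ z ∈ P.Z k,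
      (fun K : Subgroup G => (k, z, K)) ''
      {K : Subgroup G | L.R k ≤ K ∧ K ≤ Stb (L.H k) (lab (L.R k) (tr z.2 (Y.C z.1))) ∧
        OpenIn K (Stb (L.H k) (lab (L.R k) (tr z.2 (Y.C z.1)))) ∧ Tight (L.R k) K}) := by
    intro q
    refine mem_iUnion.2 ⟨q.k, mem_iUnion₂.2 ⟨q.z, q.mem, ?_⟩⟩
    exact ⟨q.K, ⟨q.ge, q.le, q.opn, q.tight⟩, rfl⟩
  refine Function.Injective.countable (f := fun q : Ty P => (⟨(q.k, q.z, q.K), hm q⟩ :
    (⋃ k : ℕ, ⋃ z ∈ P.Z k, (fun K : Subgroup G => (k, z, K)) ''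
      {K : Subgroup G | L.R k ≤ K ∧ K ≤ Stb (L.H k) (lab (L.R k) (tr z.2 (Y.C z.1))) ∧
        OpenIn K (Stb (L.H k) (lab (L.R k) (tr z.2 (Y.C z.1)))) ∧ Tight (L.R k) K} :
      Set (ℕ × (X × G) × Subgroup G)))) ?_
  intro q q' h
  have h3 := congrArg Subtype.val h
  obtain ⟨k, z, K, _, _, _, _, _⟩ := q
  obtain ⟨k', z', K', _, _, _, _, _⟩ := q'
  simp only [Prod.mk.injEq] at h3
  obtain ⟨rfl, rfl, rfl⟩ := h3
  rfl

end Pool.Agent.H69.LP
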